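import Pool.Agent.N782.GN.StmV

/-!
# Project GN (helper782): from narrow sectors to frequencies (FT)
-/

set_option autoImplicit false

namespace Pool.Agent.N546.GN

open Finset MeasureTheory
open Pool.Agent.N782.GN

namespace FTaux

open Classical in
/-- the indicator of a sector -/
noncomputable def gI (δ θ x : ℝ) : ℝ :=
  if ∃ j : ℤ, x ≤ θ + 2 * Real.pi * j ∧ θ + 2 * Real.pi * j < x + δ then 1 else 0

theorem gI_meas (δ θ : ℝ) : Measurable (gI δ θ) := by
  classical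
  have hs : MeasurableSet {x : ℝ | ∃ j : ℤ, x ≤ θ + 2 * Real.pi * j ∧
      θ + 2 * Real.pi * j < x + δ} := by
    have : {x : ℝ | ∃ j : ℤ, x ≤ θ + 2 * Real.pi * j ∧ θ + 2 * Real.pi * j < x + δ} =
        ⋃ j : ℤ, Set.Ioc (θ + 2 * Real.pi * j - δ) (θ + 2 * Real.pi * j) := by
      ext x
      simp only [Set.mem_ofPred_eq, Set.mem_iUnion, Set.mem_Ioc]
      constructor
      · rintro ⟨j, h1, h2⟩
        exact ⟨j, by linarith, h1⟩
      · rintro ⟨j, h1, h2⟩
        exact ⟨j, h2, by linarith⟩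
    rw [this]
    exact MeasurableSet.iUnion fun j => measurableSet_Ioc
  unfold gI
  exact Measurable.ite hs measurable_const measurable_const

theorem gI_per (δ θ : ℝ) : Function.Periodic (gI δ θ) (2 * Real.pi) := by
  classical
  intro x
  have h : (∃ j : ℤ, x + 2 * Real.pi ≤ θ + 2 * Real.pi * j ∧
      θ + 2 * Real.pi * j < x + 2 * Real.pi + δ) ↔
      ∃ j : ℤ, x ≤ θ + 2 * Real.pi * j ∧ θ + 2 * Real.pi * j < x + δ := by
    constructor
    · rintro ⟨j, h1, h2⟩
      refine ⟨j - 1, ?_, ?_⟩ <;> push_cast <;> linarith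
    · rintro ⟨j, h1, h2⟩
      refine ⟨j + 1, ?_, ?_⟩ <;> push_cast <;> linarith
  unfold gI
  exact if_congr h rfl rfl

theorem gI_abs (δ θ x : ℝ) : |gI δ θ x| ≤ 1 := by
  unfold gI
  split_ifs <;> simp

theorem gI_on {δ θ x : ℝ} (h1 : θ - δ < x)
    (h2 : x ≤ θ - δ + 2 * Real.pi) : gI δ θ x = if x ≤ θ then 1 else 0 := by
  classical
  have hpi := Real.pi_gt_three
  have h : (∃ j : ℤ, x ≤ θ + 2 * Real.pi * j ∧ θ + 2 * Real.pi * j < x + δ) ↔ x ≤ θ := by
    constructor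
    · rintro ⟨j, h3, h4⟩
      have hj : j < 1 := by
        by_contra hj
        have hj' : (1 : ℝ) ≤ j := by exact_mod_cast not_lt.1 hj
        nlinarith
      have hj0 : (j : ℝ) ≤ 0 := by exact_mod_cast Int.lt_add_one_iff.1 hj
      nlinarith
    · intro h
      exact ⟨0, by simpa using h, by simp only [Int.cast_zero, mul_zero, add_zero]; linarith⟩
  unfold gI
  exact if_congr h rfl rfl

theorem int_gI {δ θ : ℝ} (hδ : 0 < δ) (hδ1 : δ ≤ 1) (f : ℝ → ℂ)
    (hf : Function.Periodic f (2 * Real.pi)) :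
    ∫ x in (0 : ℝ)..(2 * Real.pi), f x * (gI δ θ x : ℂ) = ∫ x in (-δ)..0, f (x + θ) := by
  have hpi := Real.pi_gt_three
  have hper : Function.Periodic (fun x => f x * (gI δ θ x : ℂ)) (2 * Real.pi) := by
    intro x
    simp only [hf x, gI_per δ θ x]
  have h1 := hper.intervalIntegral_add_eq 0 (θ - δ)
  rw [zero_add] at h1
  rw [h1, intervalIntegral.integral_comp_add_right (fun x => f x), zero_add,
    intervalIntegral.integral_of_le (by linarith), intervalIntegral.integral_of_le (by linarith)]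
  have h2 : Set.Ioc (θ - δ) (θ - δ + 2 * Real.pi) ∩ Set.Ioc (-δ + θ) θ =
      Set.Ioc (-δ + θ) θ := by
    ext x
    simp only [Set.mem_inter_iff, Set.mem_Ioc]
    constructor
    · exact fun h => h.2
    · exact fun h => ⟨⟨by linarith [h.1], by linarith [h.2]⟩, h⟩
  rw [← h2, ← setIntegral_indicator measurableSet_Ioc]
  refine setIntegral_congr_fun measurableSet_Ioc fun x hx => ?_
  rw [gI_on hx.1 hx.2]
  by_cases hxθ : x ≤ θ
  · rw [if_pos hxθ, Set.indicator_of_mem (by exact ⟨by linarith [hx.1], hxθ⟩)]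
    simp
  · rw [if_neg hxθ, Set.indicator_of_notMem (by intro h; exact hxθ h.2)]
    simp

/-- the frequency `k` -/
noncomputable def ex (k : ℤ) (x : ℝ) : ℂ := Complex.exp (-(Complex.I * k) * x)

theorem ex_add (k : ℤ) (x y : ℝ) : ex k (x + y) = ex k x * ex k y := by
  unfold ex
  rw [← Complex.exp_add]
  congr 1
  push_cast
  ring

theorem ex_per (k : ℤ) : Function.Periodic (ex k) (2 * Real.pi) := by
  intro x
  rw [ex_add]
  have : ex k (2 * Real.pi) = 1 := by
    unfold ex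
    have := Complex.exp_int_mul_two_pi_mul_I (-k)
    rw [← this]
    congr 1
    push_cast
    ring
  rw [this, mul_one]

theorem norm_ex (k : ℤ) (x : ℝ) : ‖ex k x‖ = 1 := by
  unfold ex
  have : -(Complex.I * k) * x = ((-(k : ℝ) * x : ℝ) : ℂ) * Complex.I := by
    push_cast
    ring
  rw [this]
  exact Complex.norm_exp_ofReal_mul_I _

theorem ex_arg (k : ℤ) (t : ZI) : ex k (Complex.arg (t : ℂ)) = ph (-k) 0 t := by
  unfold ex ph
  congr 1
  push_cast
  ring

/-- the Fourier coefficient of an interval -/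
noncomputable def Jk (δ : ℝ) (k : ℤ) : ℂ := ∫ x in (-δ)..0, ex k x

theorem Jk_le {δ : ℝ} (hδ : 0 < δ) (k : ℤ) : ‖Jk δ k‖ ≤ δ := by
  have h := intervalIntegral.norm_integral_le_of_norm_le_const (a := -δ) (b := 0) (C := 1)
    (f := fun x => ex k x) (fun x _ => (norm_ex k x).le)
  unfold Jk
  rw [sub_neg_eq_add, zero_add, abs_of_pos hδ, one_mul] at h
  exact h

theorem Jk_le' {δ : ℝ} {k : ℤ} (hk : k ≠ 0) : ‖Jk δ k‖ ≤ 2 / |(k : ℝ)| := by
  unfold Jk ex
  have hc : -(Complex.I * (k : ℂ)) ≠ 0 := by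
    rw [neg_ne_zero]
    exact mul_ne_zero Complex.I_ne_zero (by exact_mod_cast hk)
  rw [integral_exp_mul_complex hc, norm_div, norm_neg, norm_mul, Complex.norm_I, one_mul]
  have h3 : ‖(k : ℂ)‖ = |(k : ℝ)| := by
    rw [Complex.norm_intCast]
  rw [h3]
  have hk' : (0 : ℝ) < |(k : ℝ)| := abs_pos.2 (by exact_mod_cast hk)
  refine div_le_div_of_nonneg_right ?_ hk'.le
  have h4 := norm_ex k 0
  have h5 := norm_ex k (-δ)
  unfold ex at h4 h5
  calc _ ≤ ‖Complex.exp (-(Complex.I * k) * ((0 : ℝ) : ℂ))‖ +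
        ‖Complex.exp (-(Complex.I * k) * ((-δ : ℝ) : ℂ))‖ := norm_sub_le _ _
    _ = 2 := by rw [h4, h5]; norm_num

theorem sc_eq (δ x : ℝ) (t : ZI) : sc δ x t = gI δ (Complex.arg (t : ℂ)) x := rfl

/-- the function -/
noncomputable def GG (δ : ℝ) (s : Finset ZI) (c : ZI → ℝ) (x : ℝ) : ℂ :=
  ((∑ t ∈ s, c t * sc δ x t : ℝ) : ℂ)

theorem GG_meas (δ : ℝ) (s : Finset ZI) (c : ZI → ℝ) : Measurable (GG δ s c) := by
  unfold GG
  refine Complex.measurable_ofReal.comp ?_
  refine Finset.measurable_sum _ fun t _ => ?_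
  exact (gI_meas δ _).const_mul _

theorem GG_bdd (δ : ℝ) (s : Finset ZI) (c : ZI → ℝ) (x : ℝ) :
    ‖GG δ s c x‖ ≤ ∑ t ∈ s, |c t| := by
  unfold GG
  rw [Complex.norm_real, Real.norm_eq_abs]
  refine (Finset.abs_sum_le_sum_abs _ _).trans (Finset.sum_le_sum fun t _ => ?_)
  rw [abs_mul]
  exact mul_le_of_le_one_right (abs_nonneg _) (gI_abs _ _ _)

theorem coef {δ : ℝ} (hδ : 0 < δ) (hδ1 : δ ≤ 1) (s : Finset ZI) (c : ZI → ℝ) (k : ℤ) :
    fourierCoeffOn Real.two_pi_pos (GG δ s c) k =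
      (1 / (2 * Real.pi) : ℝ) * (Jk δ k * ∑ t ∈ s, (c t : ℂ) * ph (-k) 0 t) := by
  rw [fourierCoeffOn_eq_integral]
  have h1 : ∀ x : ℝ, fourier (-k) (x : AddCircle (2 * Real.pi - 0)) • GG δ s c x =
      ∑ t ∈ s, (c t : ℂ) * (ex k x * (gI δ (Complex.arg (t : ℂ)) x : ℂ)) := by
    intro x
    have h2 : fourier (-k) (x : AddCircle (2 * Real.pi - 0)) = ex k x := by
      rw [fourier_coe_apply]
      unfold ex
      congr 1
      have : (Real.pi : ℂ) ≠ 0 := by exact_mod_cast Real.pi_ne_zero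
      push_cast
      rw [sub_zero]
      field_simp
    rw [h2, smul_eq_mul, GG, Complex.ofReal_sum, Finset.mul_sum]
    refine Finset.sum_congr rfl fun t _ => ?_
    rw [sc_eq]
    push_cast
    ring
  simp only [h1]
  rw [intervalIntegral.integral_finsetSum]
  · have h3 : ∀ t ∈ s, ∫ x in (0 : ℝ)..(2 * Real.pi),
        (c t : ℂ) * (ex k x * (gI δ (Complex.arg (t : ℂ)) x : ℂ)) =
        Jk δ k * ((c t : ℂ) * ph (-k) 0 t) := by
      intro t _
      rw [intervalIntegral.integral_const_mul, int_gI hδ hδ1 (ex k) (ex_per k), ← ex_arg]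
      have : ∀ x : ℝ, ex k (x + Complex.arg (t : ℂ)) = ex k x * ex k (Complex.arg (t : ℂ)) :=
        fun x => ex_add k x _
      simp only [this]
      rw [intervalIntegral.integral_mul_const, Jk]
      ring
    rw [Finset.sum_congr rfl h3, ← Finset.mul_sum, sub_zero, Complex.real_smul]
  · intro t _
    have hm : Measurable (fun x => (c t : ℂ) * (ex k x * (gI δ (Complex.arg (t : ℂ)) x : ℂ))) := by
      refine Measurable.const_mul ?_ _
      refine Measurable.mul ?_ (Complex.measurable_ofReal.comp (gI_meas δ _))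
      unfold ex
      fun_prop
    refine IntervalIntegrable.mono_fun (g := fun x => (c t : ℂ) * (ex k x * (gI δ (Complex.arg (t : ℂ)) x : ℂ)))
      (f := fun _ => (|c t| : ℝ)) intervalIntegrable_const hm.aestronglyMeasurable ?_
    refine Filter.Eventually.of_forall fun x => ?_
    simp only
    rw [norm_mul, norm_mul, norm_ex, one_mul, Complex.norm_real, Complex.norm_real,
      Real.norm_eq_abs, Real.norm_eq_abs, Real.norm_eq_abs, abs_abs]
    exact mul_le_of_le_one_right (abs_nonneg _) (gI_abs _ _ _)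

/-- Parseval's identity -/
theorem pars {δ : ℝ} (hδ : 0 < δ) (hδ1 : δ ≤ 1) (s : Finset ZI) (c : ZI → ℝ) :
    HasSum (fun k : ℤ => ‖Jk δ k‖ ^ 2 * ‖∑ t ∈ s, (c t : ℂ) * ph (-k) 0 t‖ ^ 2)
      (2 * Real.pi * ∫ x in (0 : ℝ)..(2 * Real.pi), (∑ t ∈ s, c t * sc δ x t) ^ 2) := by
  have hL : MemLp (GG δ s c) 2 (volume.restrict (Set.Ioc 0 (2 * Real.pi))) := by
    refine MemLp.of_bound (GG_meas δ s c).aestronglyMeasurable (∑ t ∈ s, |c t|) ?_
    exact Filter.Eventually.of_forall fun x => GG_bdd δ s c x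
  have h := (hasSum_sq_fourierCoeffOn Real.two_pi_pos hL).mul_left ((2 * Real.pi) ^ 2)
  have e1 : (fun k : ℤ => ‖Jk δ k‖ ^ 2 * ‖∑ t ∈ s, (c t : ℂ) * ph (-k) 0 t‖ ^ 2) =
      fun k => (2 * Real.pi) ^ 2 * ‖fourierCoeffOn Real.two_pi_pos (GG δ s c) k‖ ^ 2 := by
    funext k
    rw [coef hδ hδ1, norm_mul, norm_mul, Complex.norm_real, Real.norm_eq_abs,
      abs_of_pos (by positivity)]
    have := Real.pi_pos
    field_simp
  have e2 : 2 * Real.pi * ∫ x in (0 : ℝ)..(2 * Real.pi), (∑ t ∈ s, c t * sc δ x t) ^ 2 =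
      (2 * Real.pi) ^ 2 * ((2 * Real.pi - 0)⁻¹ •
        ∫ x in (0 : ℝ)..(2 * Real.pi), ‖GG δ s c x‖ ^ 2) := by
    rw [sub_zero, smul_eq_mul]
    have h1 : ∀ x : ℝ, ‖GG δ s c x‖ ^ 2 = (∑ t ∈ s, c t * sc δ x t) ^ 2 := by
      intro x
      rw [GG, Complex.norm_real, Real.norm_eq_abs, sq_abs]
    simp only [h1]
    have := Real.pi_pos
    field_simp
  rw [e1, e2]
  exact h

end FTaux

open FTaux in
theorem ft (h : S_LSB) : S_FT := by
  obtain ⟨C, D, hC, hL⟩ := h
  refine ⟨1 + 16 * C, D, by positivity, ?_⟩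
  intro V δ K c hV hδ hδ1 hK hc
  have hK0 : (0 : ℝ) < K := by exact_mod_cast hK
  have hlog : 0 ≤ V * (Real.log V) ^ D :=
    mul_nonneg (by linarith) (pow_nonneg (Real.log_nonneg (by linarith)) _)
  set F : ℤ → ℝ := fun k => ‖∑ t ∈ bl V, (c t : ℂ) * ph k 0 t‖ ^ 2 with hF
  have hF0 : ∀ k, 0 ≤ F k := fun k => sq_nonneg _
  have hc' : ∀ t, ‖((c t : ℝ) : ℂ)‖ ≤ (dv t : ℝ) ^ 2 := fun t => by
    rw [Complex.norm_real]
    exact hc t
  have hS : ∀ N : ℕ, ∑ k ∈ Icc (-(N : ℤ)) N, F (-k) = ∑ k ∈ Icc (-(N : ℤ)) N, F k := by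
    intro N
    refine Finset.sum_bij' (fun k _ => -k) (fun k _ => -k) ?_ ?_ ?_ ?_ ?_
    · intro k hk
      rw [Finset.mem_Icc] at hk ⊢
      omega
    · intro k hk
      rw [Finset.mem_Icc] at hk ⊢
      omega
    · intro k _
      simp
    · intro k _
      simp
    · intro k _
      rfl
  have hT : ∀ m : ℕ, ∑ k ∈ Icc (-((K * 2 ^ m : ℕ) : ℤ)) (K * 2 ^ m : ℕ), ‖Jk δ k‖ ^ 2 * F (-k) ≤
      δ ^ 2 * ∑ k ∈ Icc (-(K : ℤ)) K, F k +
        16 * C * (V * (Real.log V) ^ D) * (1 - (1 / 2) ^ m) * (1 / K + V / K ^ 2) := by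
    intro m
    induction m with
    | zero =>
      rw [pow_zero, mul_one, pow_zero, sub_self, mul_zero, zero_mul, add_zero, ← hS,
        Finset.mul_sum]
      refine Finset.sum_le_sum fun k _ => ?_
      refine mul_le_mul_of_nonneg_right ?_ (hF0 _)
      exact pow_le_pow_left₀ (norm_nonneg _) (Jk_le hδ k) 2
    | succ m ih =>
      set N : ℕ := K * 2 ^ m with hN
      set N' : ℕ := K * 2 ^ (m + 1) with hN'
      have hNN : N ≤ N' := by
        rw [hN, hN']
        exact Nat.mul_le_mul_left _ (Nat.pow_le_pow_right (by norm_num) (Nat.le_succ m))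
      have hN0 : 0 < N := by positivity
      have hNr : (N : ℝ) = K * 2 ^ m := by rw [hN]; push_cast; ring
      have hNr' : (N' : ℝ) = K * 2 ^ (m + 1) := by rw [hN']; push_cast; ring
      have hsub : Icc (-(N : ℤ)) N ⊆ Icc (-(N' : ℤ)) N' := by
        intro k hk
        rw [Finset.mem_Icc] at hk ⊢
        omega
      rw [← Finset.sum_sdiff hsub]
      have h1 : ∑ k ∈ Icc (-(N' : ℤ)) N' \ Icc (-(N : ℤ)) N, ‖Jk δ k‖ ^ 2 * F (-k) ≤
          (2 / (N : ℝ)) ^ 2 * (C * (N' + V) * V * (Real.log V) ^ D) := by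
        calc _ ≤ ∑ k ∈ Icc (-(N' : ℤ)) N' \ Icc (-(N : ℤ)) N, (2 / (N : ℝ)) ^ 2 * F (-k) := by
              refine Finset.sum_le_sum fun k hk => ?_
              rw [Finset.mem_sdiff, Finset.mem_Icc, Finset.mem_Icc] at hk
              have hk0 : k ≠ 0 := by
                rintro rfl
                apply hk.2
                constructor <;> omega
              have hkN : (N : ℝ) ≤ |(k : ℝ)| := by
                have : (N : ℤ) ≤ |k| := by
                  by_contra hlt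
                  push Not at hlt
                  rw [abs_lt] at hlt
                  exact hk.2 ⟨hlt.1.le, hlt.2.le⟩
                have h2 : ((N : ℤ) : ℝ) ≤ ((|k| : ℤ) : ℝ) := by exact_mod_cast this
                rw [Int.cast_abs] at h2
                exact_mod_cast h2
              refine mul_le_mul_of_nonneg_right ?_ (hF0 _)
              refine pow_le_pow_left₀ (norm_nonneg _) ((Jk_le' hk0).trans ?_) 2
              exact div_le_div_of_nonneg_left (by norm_num) (by exact_mod_cast hN0) hkN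
          _ ≤ ∑ k ∈ Icc (-(N' : ℤ)) N', (2 / (N : ℝ)) ^ 2 * F (-k) := by
              refine Finset.sum_le_sum_of_subset_of_nonneg Finset.sdiff_subset fun k _ _ => ?_
              exact mul_nonneg (sq_nonneg _) (hF0 _)
          _ = (2 / (N : ℝ)) ^ 2 * ∑ k ∈ Icc (-(N' : ℤ)) N', F k := by
              rw [← hS, Finset.mul_sum]
          _ ≤ _ := by
              refine mul_le_mul_of_nonneg_left ?_ (sq_nonneg _)
              exact hL V N' (fun t => (c t : ℂ)) hV (by omega) hc'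
      have h2 : (2 / (N : ℝ)) ^ 2 * (C * (N' + V) * V * (Real.log V) ^ D) ≤
          16 * C * (V * (Real.log V) ^ D) * ((1 / 2) ^ m - (1 / 2) ^ (m + 1)) *
            (1 / K + V / K ^ 2) := by
        have h3 : (2 / (N : ℝ)) ^ 2 * (N' + V) ≤
            16 * ((1 / 2) ^ m - (1 / 2) ^ (m + 1)) * (1 / K + V / K ^ 2) := by
          rw [hNr, hNr']
          have h2m : (1 : ℝ) ≤ 2 ^ m := one_le_pow₀ (by norm_num)
          have e1 : (2 / ((K : ℝ) * 2 ^ m)) ^ 2 * (K * 2 ^ (m + 1) + V) =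
              (1 / 2 ^ m) * (8 * (1 / K) + 4 * (1 / 2 ^ m) * (V / K ^ 2)) := by
            rw [pow_succ]
            field_simp
            ring
          have e2 : 16 * ((1 / 2 : ℝ) ^ m - (1 / 2) ^ (m + 1)) * (1 / (K : ℝ) + V / K ^ 2) =
              (1 / 2 ^ m) * (8 * (1 / K) + 8 * (V / K ^ 2)) := by
            rw [pow_succ, one_div_pow]
            ring
          rw [e1, e2]
          refine mul_le_mul_of_nonneg_left ?_ (by positivity)
          have h4 : 1 / (2 : ℝ) ^ m ≤ 1 := by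
            rw [div_le_one (by positivity)]
            exact h2m
          have h5 : 0 ≤ V / (K : ℝ) ^ 2 := by positivity
          nlinarith
        calc _ = C * (V * (Real.log V) ^ D) * ((2 / (N : ℝ)) ^ 2 * (N' + V)) := by ring
          _ ≤ C * (V * (Real.log V) ^ D) *
              (16 * ((1 / 2) ^ m - (1 / 2) ^ (m + 1)) * (1 / K + V / K ^ 2)) :=
              mul_le_mul_of_nonneg_left h3 (mul_nonneg hC.le hlog)
          _ = _ := by ring
      calc _ ≤ 16 * C * (V * (Real.log V) ^ D) * ((1 / 2) ^ m - (1 / 2) ^ (m + 1)) *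
            (1 / K + V / K ^ 2) + (δ ^ 2 * ∑ k ∈ Icc (-(K : ℤ)) K, F k +
            16 * C * (V * (Real.log V) ^ D) * (1 - (1 / 2) ^ m) * (1 / K + V / K ^ 2)) :=
            add_le_add (h1.trans h2) ih
        _ = _ := by ring
  have hsum := pars hδ hδ1 (bl V) c
  have hle := hasSum_le_of_sum_le hsum (c := δ ^ 2 * ∑ k ∈ Icc (-(K : ℤ)) K, F k +
    16 * C * (V * (Real.log V) ^ D) * (1 / K + V / K ^ 2)) (by
      intro s
      obtain ⟨m, hm⟩ : ∃ m : ℕ, s ⊆ Icc (-((K * 2 ^ m : ℕ) : ℤ)) (K * 2 ^ m : ℕ) := by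
        refine ⟨∑ k ∈ s, k.natAbs, fun k hk => ?_⟩
        rw [Finset.mem_Icc]
        have h1 : k.natAbs ≤ ∑ k ∈ s, k.natAbs :=
          Finset.single_le_sum (f := fun k : ℤ => k.natAbs) (fun _ _ => Nat.zero_le _) hk
        have h2 : ∑ k ∈ s, k.natAbs < 2 ^ (∑ k ∈ s, k.natAbs) := Nat.lt_two_pow_self
        have h3 : 2 ^ (∑ k ∈ s, k.natAbs) ≤ K * 2 ^ (∑ k ∈ s, k.natAbs) :=
          Nat.le_mul_of_pos_left _ (by omega)
        omega
      calc _ ≤ ∑ k ∈ Icc (-((K * 2 ^ m : ℕ) : ℤ)) (K * 2 ^ m : ℕ), ‖Jk δ k‖ ^ 2 * F (-k) :=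
            Finset.sum_le_sum_of_subset_of_nonneg hm fun k _ _ =>
              mul_nonneg (sq_nonneg _) (hF0 _)
        _ ≤ _ := hT m
        _ ≤ _ := by
            have h4 : 16 * C * (V * (Real.log V) ^ D) * (1 - (1 / 2) ^ m) ≤
                16 * C * (V * (Real.log V) ^ D) := by
              refine mul_le_of_le_one_right (mul_nonneg (by positivity) hlog) ?_
              have : (0 : ℝ) ≤ (1 / 2) ^ m := by positivity
              linarith
            have h5 : (0 : ℝ) ≤ 1 / K + V / K ^ 2 := by positivity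
            have := mul_le_mul_of_nonneg_right h4 h5
            linarith)
  have hI : 0 ≤ ∫ x in (0 : ℝ)..(2 * Real.pi), (∑ t ∈ bl V, c t * sc δ x t) ^ 2 :=
    intervalIntegral.integral_nonneg Real.two_pi_pos.le fun x _ => sq_nonneg _
  have hpi := Real.pi_gt_three
  have h6 : 0 ≤ ∑ k ∈ Icc (-(K : ℤ)) K, F k := Finset.sum_nonneg fun k _ => hF0 k
  have h7 : (0 : ℝ) ≤ V * (Real.log V) ^ D * (1 / K + V / K ^ 2) :=
    mul_nonneg hlog (by positivity)
  have h8 : 0 ≤ δ ^ 2 * ∑ k ∈ Icc (-(K : ℤ)) K, F k := mul_nonneg (sq_nonneg _) h6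
  calc _ ≤ 2 * Real.pi * ∫ x in (0 : ℝ)..(2 * Real.pi), (∑ t ∈ bl V, c t * sc δ x t) ^ 2 := by
        nlinarith
    _ ≤ _ := hle
    _ ≤ (1 + 16 * C) * (δ ^ 2 * ∑ k ∈ Icc (-(K : ℤ)) K, F k +
        V * (Real.log V) ^ D * (1 / K + V / K ^ 2)) := by
        nlinarith [mul_nonneg hC.le h8]

end Pool.Agent.N546.GN
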