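import Pool.Agent.N546.GN.LsbB

/-!
# Project GN (helper782): mean value theorem for angular frequencies (LSB)
-/

set_option autoImplicit false

namespace Pool.Agent.N546.GN.LSB

open Finset
open Pool.Agent.N782.GN
open Pool.Agent.N546.GN.LSA (E HS dls)

theorem ph_E (k : ℤ) (t : ZI) : ph k 0 t = E k (an t) := by
  unfold ph E an
  congr 2
  push_cast
  ring

theorem sum_ph (V : ℝ) (c : ZI → ℂ) (k : ℤ) :
    ∑ t ∈ bl V, c t * ph k 0 t = HS (AA V) (cA V c) k := by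
  classical
  have hmap : ∀ t ∈ bl V, an t ∈ AA V := fun t ht => mem_image_of_mem _ ht
  rw [← sum_fiberwise_of_maps_to hmap]
  unfold HS cA
  refine sum_congr rfl fun θ _ => ?_
  rw [sum_mul]
  refine sum_congr rfl fun t ht => ?_
  rw [ph_E, (mem_filter.1 ht).2]

theorem half (V : ℝ) (hV : 2 ≤ V) (K : ℕ) (hK : 1 ≤ K) (d : ℝ → ℂ) (A : Finset ℝ)
    (hA : A ⊆ AA V) (hpi : ∀ a ∈ A, ∀ b ∈ A, |a - b| < Real.pi) :
    ∑ k ∈ Icc (-(K : ℤ)) K, ‖HS A d k‖ ^ 2 ≤ 36 * (K + V) * ∑ a ∈ A, ‖d a‖ ^ 2 := by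
  have h := dls A d K (1 / V) (by positivity)
    (fun a ha b hb hab => spacing V hV (hA ha) (hA hb) hab (hpi a ha b hb))
    (fun a ha b hb => (hpi a ha b hb).le)
  refine h.trans (mul_le_mul_of_nonneg_right ?_ (sum_nonneg fun _ _ => sq_nonneg _))
  have hK' : (1 : ℝ) ≤ K := by exact_mod_cast hK
  rw [div_div_eq_mul_div, div_one]
  linarith

theorem all (V : ℝ) (hV : 2 ≤ V) (K : ℕ) (hK : 1 ≤ K) (d : ℝ → ℂ) :
    ∑ k ∈ Icc (-(K : ℤ)) K, ‖HS (AA V) d k‖ ^ 2 ≤ 72 * (K + V) * ∑ a ∈ AA V, ‖d a‖ ^ 2 := by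
  classical
  have hmem : ∀ a ∈ AA V, -Real.pi < a ∧ a ≤ Real.pi := by
    intro a ha
    unfold AA at ha
    rw [mem_image] at ha
    obtain ⟨t, _, rfl⟩ := ha
    exact Complex.arg_mem_Ioc _
  have h1 := half V hV K hK d ((AA V).filter (fun a => a ≤ 0)) (filter_subset _ _) (by
    intro a ha b hb
    rw [mem_filter] at ha hb
    have ha' := hmem a ha.1
    have hb' := hmem b hb.1
    rw [abs_lt]
    constructor <;> linarith [ha.2, hb.2])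
  have h2 := half V hV K hK d ((AA V).filter (fun a => ¬ a ≤ 0)) (filter_subset _ _) (by
    intro a ha b hb
    rw [mem_filter] at ha hb
    have ha' := hmem a ha.1
    have hb' := hmem b hb.1
    have ha2 := not_le.1 ha.2
    have hb2 := not_le.1 hb.2
    rw [abs_lt]
    constructor <;> linarith)
  have h3 : ∀ k : ℤ, HS (AA V) d k = HS ((AA V).filter (fun a => a ≤ 0)) d k +
      HS ((AA V).filter (fun a => ¬ a ≤ 0)) d k := by
    intro k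
    unfold HS
    rw [sum_filter_add_sum_filter_not]
  have h4 : ∀ x y : ℂ, ‖x + y‖ ^ 2 ≤ 2 * ‖x‖ ^ 2 + 2 * ‖y‖ ^ 2 := by
    intro x y
    have h5 := norm_add_le x y
    nlinarith [sq_nonneg (‖x‖ - ‖y‖), norm_nonneg (x + y), norm_nonneg x, norm_nonneg y]
  calc ∑ k ∈ Icc (-(K : ℤ)) K, ‖HS (AA V) d k‖ ^ 2
      ≤ ∑ k ∈ Icc (-(K : ℤ)) K, (2 * ‖HS ((AA V).filter (fun a => a ≤ 0)) d k‖ ^ 2 +
        2 * ‖HS ((AA V).filter (fun a => ¬ a ≤ 0)) d k‖ ^ 2) := by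
        refine sum_le_sum fun k _ => ?_
        rw [h3]
        exact h4 _ _
    _ = 2 * ∑ k ∈ Icc (-(K : ℤ)) K, ‖HS ((AA V).filter (fun a => a ≤ 0)) d k‖ ^ 2 +
        2 * ∑ k ∈ Icc (-(K : ℤ)) K, ‖HS ((AA V).filter (fun a => ¬ a ≤ 0)) d k‖ ^ 2 := by
        rw [sum_add_distrib, ← mul_sum, ← mul_sum]
    _ ≤ 2 * (36 * (K + V) * ∑ a ∈ (AA V).filter (fun a => a ≤ 0), ‖d a‖ ^ 2) +
        2 * (36 * (K + V) * ∑ a ∈ (AA V).filter (fun a => ¬ a ≤ 0), ‖d a‖ ^ 2) := by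
        linarith
    _ = 72 * (K + V) * ∑ a ∈ AA V, ‖d a‖ ^ 2 := by
        rw [← sum_filter_add_sum_filter_not (AA V) (fun a => a ≤ 0)]
        ring

theorem log_le {V : ℝ} (hV : 2 ≤ V) : 1 + Real.log V ≤ 3 * Real.log V := by
  have h1 : Real.log 2 ≤ Real.log V := Real.log_le_log (by norm_num) hV
  have h2 := Real.log_two_gt_d9
  linarith

end Pool.Agent.N546.GN.LSB

namespace Pool.Agent.N546.GN

open Finset
open Pool.Agent.N782.GN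
open Pool.Agent.N546.GN.LSB

theorem lsb : S_LSB := by
  obtain ⟨m1, hm1⟩ := TT_le 16
  obtain ⟨m2, hm2⟩ := TT_le 9
  refine ⟨73728 * 3 ^ (m1 + m2), m1 + m2, by positivity, ?_⟩
  intro V K c hV hK hc
  simp only [sum_ph]
  have hlog : 0 ≤ Real.log V := Real.log_nonneg (by linarith)
  have h1 : TT 16 ⌊V⌋₊ * TT 9 ⌊V⌋₊ ≤ 3 ^ (m1 + m2) * Real.log V ^ (m1 + m2) := by
    calc TT 16 ⌊V⌋₊ * TT 9 ⌊V⌋₊ ≤ (1 + Real.log V) ^ m1 * (1 + Real.log V) ^ m2 :=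
          mul_le_mul (hm1 V hV) (hm2 V hV) (TT_nonneg _ _) (by positivity)
      _ = (1 + Real.log V) ^ (m1 + m2) := by rw [pow_add]
      _ ≤ (3 * Real.log V) ^ (m1 + m2) := pow_le_pow_left₀ (by linarith) (log_le hV) _
      _ = _ := by rw [mul_pow]
  have hKV : (0 : ℝ) ≤ 72 * (K + V) := by
    have : (0 : ℝ) ≤ K := Nat.cast_nonneg _
    linarith
  calc ∑ k ∈ Icc (-(K : ℤ)) K, ‖Pool.Agent.N546.GN.LSA.HS (AA V) (cA V c) k‖ ^ 2
      ≤ 72 * (K + V) * ∑ a ∈ AA V, ‖cA V c a‖ ^ 2 := all V hV K hK _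
    _ ≤ 72 * (K + V) * (1024 * V * TT 16 ⌊V⌋₊ * TT 9 ⌊V⌋₊) :=
        mul_le_mul_of_nonneg_left (sum_cA V hV c hc) hKV
    _ = 72 * (K + V) * (1024 * V) * (TT 16 ⌊V⌋₊ * TT 9 ⌊V⌋₊) := by ring
    _ ≤ 72 * (K + V) * (1024 * V) * (3 ^ (m1 + m2) * Real.log V ^ (m1 + m2)) :=
        mul_le_mul_of_nonneg_left h1 (mul_nonneg hKV (by linarith))
    _ = _ := by ring

end Pool.Agent.N546.GN
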