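import Mathlib

/-!
# Project GN (helper782): the dual large sieve on a half circle
-/

set_option autoImplicit false

namespace Pool.Agent.N546.GN.LSA

open Finset

/-- `exp (i n u)` -/
noncomputable def E (n : ℤ) (u : ℝ) : ℂ := Complex.exp (Complex.I * (((n : ℝ) * u : ℝ) : ℂ))

theorem E_norm (n : ℤ) (u : ℝ) : ‖E n u‖ = 1 := by
  unfold E
  rw [mul_comm]
  exact Complex.norm_exp_ofReal_mul_I _

theorem E_add (n : ℤ) (u v : ℝ) : E n (u + v) = E n u * E n v := by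
  unfold E
  rw [← Complex.exp_add]
  congr 1
  push_cast
  ring

theorem E_add' (m n : ℤ) (u : ℝ) : E (m + n) u = E m u * E n u := by
  unfold E
  rw [← Complex.exp_add]
  congr 1
  push_cast
  ring

theorem E_conj (n : ℤ) (u : ℝ) : (starRingEnd ℂ) (E n u) = E n (-u) := by
  unfold E
  rw [← Complex.exp_conj]
  congr 1
  rw [map_mul, Complex.conj_I, Complex.conj_ofReal]
  push_cast
  ring

theorem E_conj' (n : ℤ) (u : ℝ) : (starRingEnd ℂ) (E n u) = E (-n) u := by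
  unfold E
  rw [← Complex.exp_conj]
  congr 1
  rw [map_mul, Complex.conj_I, Complex.conj_ofReal]
  push_cast
  ring

theorem E_pow (j : ℕ) (u : ℝ) : E j u = E 1 u ^ j := by
  unfold E
  rw [← Complex.exp_nat_mul]
  congr 1
  push_cast
  ring

/-- the Dirichlet kernel -/
noncomputable def DK (N : ℕ) (u : ℝ) : ℂ := ∑ j ∈ range N, E j u

theorem DK_le (N : ℕ) (u : ℝ) : ‖DK N u‖ ≤ N := by
  unfold DK
  refine (norm_sum_le _ _).trans ?_
  simp only [E_norm, sum_const, card_range, nsmul_eq_mul, mul_one, le_refl]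

theorem DK_le' (N : ℕ) {u : ℝ} (hu : u ≠ 0) (hpi : |u| ≤ Real.pi) : ‖DK N u‖ ≤ Real.pi / |u| := by
  have hu' : 0 < |u| := abs_pos.2 hu
  have h1 : ‖E 1 u - 1‖ = 2 * |Real.sin (u / 2)| := by
    unfold E
    have h := Complex.norm_exp_I_mul_ofReal_sub_one u
    rw [norm_mul, Real.norm_eq_abs, Real.norm_eq_abs, abs_of_pos (by norm_num : (0 : ℝ) < 2)] at h
    rw [← h]
    congr 4
    push_cast
    ring
  have h2 : 2 / Real.pi * |u / 2| ≤ |Real.sin (u / 2)| := by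
    refine Real.mul_abs_le_abs_sin ?_
    rw [abs_div, abs_of_pos (by norm_num : (0 : ℝ) < 2)]
    linarith
  have hp := Real.pi_pos
  have h3 : 2 * |u| / Real.pi ≤ ‖E 1 u - 1‖ := by
    rw [h1]
    rw [abs_div, abs_of_pos (by norm_num : (0 : ℝ) < 2)] at h2
    calc 2 * |u| / Real.pi = 2 * (2 / Real.pi * (|u| / 2)) := by ring
      _ ≤ _ := by linarith
  have h4 : 0 < ‖E 1 u - 1‖ := lt_of_lt_of_le (by positivity) h3
  have h5 : E 1 u ≠ 1 := by
    intro h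
    rw [h, sub_self, norm_zero] at h4
    exact lt_irrefl _ h4
  have h6 : DK N u = (E 1 u ^ N - 1) / (E 1 u - 1) := by
    unfold DK
    rw [← geom_sum_eq h5]
    exact sum_congr rfl fun j _ => E_pow j u
  rw [h6, norm_div]
  have h7 : ‖E 1 u ^ N - 1‖ ≤ 2 := by
    refine (norm_sub_le _ _).trans ?_
    rw [norm_pow, E_norm, one_pow, norm_one]
    norm_num
  calc ‖E 1 u ^ N - 1‖ / ‖E 1 u - 1‖ ≤ 2 / (2 * |u| / Real.pi) :=
        div_le_div₀ (by norm_num) h7 (by positivity) h3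
    _ = Real.pi / |u| := by
        field_simp

/-- the exponential sum -/
noncomputable def HS (A : Finset ℝ) (d : ℝ → ℂ) (n : ℤ) : ℂ := ∑ a ∈ A, d a * E n a

theorem expand (A : Finset ℝ) (d : ℝ → ℂ) (N : ℕ) (K : ℤ) :
    ∑ j ∈ range N, ∑ j' ∈ range N, ‖HS A d ((j : ℤ) - j' - K)‖ ^ 2 ≤
      ∑ a ∈ A, ∑ b ∈ A, ‖d a‖ * ‖d b‖ * ‖DK N (a - b)‖ ^ 2 := by
  have h1 : ∀ n : ℤ, ((‖HS A d n‖ ^ 2 : ℝ) : ℂ) =
      ∑ a ∈ A, ∑ b ∈ A, d a * (starRingEnd ℂ) (d b) * E n (a - b) := by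
    intro n
    have h2 : ((‖HS A d n‖ ^ 2 : ℝ) : ℂ) = HS A d n * (starRingEnd ℂ) (HS A d n) := by
      rw [Complex.mul_conj, Complex.normSq_eq_norm_sq]
    rw [h2]
    unfold HS
    rw [map_sum, sum_mul_sum]
    refine sum_congr rfl fun a _ => sum_congr rfl fun b _ => ?_
    rw [map_mul, E_conj, sub_eq_add_neg, E_add]
    ring
  have h3 : ∀ u : ℝ, ∑ j ∈ range N, ∑ j' ∈ range N, E ((j : ℤ) - j' - K) u =
      E (-K) u * ((‖DK N u‖ ^ 2 : ℝ) : ℂ) := by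
    intro u
    have h4 : ((‖DK N u‖ ^ 2 : ℝ) : ℂ) = DK N u * (starRingEnd ℂ) (DK N u) := by
      rw [Complex.mul_conj, Complex.normSq_eq_norm_sq]
    rw [h4]
    unfold DK
    rw [map_sum, sum_mul_sum, mul_sum]
    refine sum_congr rfl fun j _ => ?_
    rw [mul_sum]
    refine sum_congr rfl fun j' _ => ?_
    rw [E_conj', ← E_add', ← E_add']
    congr 1
    ring
  have h5 : ((∑ j ∈ range N, ∑ j' ∈ range N, ‖HS A d ((j : ℤ) - j' - K)‖ ^ 2 : ℝ) : ℂ) =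
      ∑ a ∈ A, ∑ b ∈ A, d a * (starRingEnd ℂ) (d b) * (E (-K) (a - b) *
        ((‖DK N (a - b)‖ ^ 2 : ℝ) : ℂ)) := by
    rw [Complex.ofReal_sum]
    have h6 : ∀ j ∈ range N, ((∑ j' ∈ range N, ‖HS A d ((j : ℤ) - j' - K)‖ ^ 2 : ℝ) : ℂ) =
        ∑ j' ∈ range N, ∑ a ∈ A, ∑ b ∈ A, d a * (starRingEnd ℂ) (d b) *
          E ((j : ℤ) - j' - K) (a - b) := by
      intro j _
      rw [Complex.ofReal_sum]
      exact sum_congr rfl fun j' _ => h1 _
    rw [sum_congr rfl h6]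
    have h7 : ∀ j ∈ range N, ∑ j' ∈ range N, ∑ a ∈ A, ∑ b ∈ A, d a * (starRingEnd ℂ) (d b) *
        E ((j : ℤ) - j' - K) (a - b) = ∑ a ∈ A, ∑ b ∈ A, ∑ j' ∈ range N,
        d a * (starRingEnd ℂ) (d b) * E ((j : ℤ) - j' - K) (a - b) := by
      intro j _
      rw [sum_comm]
      exact sum_congr rfl fun a _ => sum_comm
    rw [sum_congr rfl h7, sum_comm]
    refine sum_congr rfl fun a _ => ?_
    rw [sum_comm]
    refine sum_congr rfl fun b _ => ?_
    rw [← h3, mul_sum]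
    refine sum_congr rfl fun j _ => ?_
    rw [mul_sum]
  have h0 : 0 ≤ ∑ j ∈ range N, ∑ j' ∈ range N, ‖HS A d ((j : ℤ) - j' - K)‖ ^ 2 :=
    sum_nonneg fun j _ => sum_nonneg fun j' _ => sq_nonneg _
  have h8 := congrArg norm h5
  rw [Complex.norm_real, Real.norm_eq_abs, abs_of_nonneg h0] at h8
  rw [h8]
  refine (norm_sum_le _ _).trans (sum_le_sum fun a _ => ?_)
  refine (norm_sum_le _ _).trans (sum_le_sum fun b _ => ?_)
  rw [norm_mul, norm_mul, norm_mul, E_norm, one_mul, RCLike.norm_conj, Complex.norm_real,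
    Real.norm_eq_abs, abs_of_nonneg (sq_nonneg _)]

theorem shift (A : Finset ℝ) (d : ℝ → ℂ) (K : ℕ) :
    ((2 * K + 1 : ℕ) : ℝ) * ∑ k ∈ Icc (-(K : ℤ)) K, ‖HS A d k‖ ^ 2 ≤
      ∑ j ∈ range (2 * (2 * K + 1)), ∑ j' ∈ range (2 * (2 * K + 1)),
        ‖HS A d ((j : ℤ) - j' - K)‖ ^ 2 := by
  rw [sum_comm]
  have h1 : ∀ j' ∈ range (2 * K + 1), ∑ k ∈ Icc (-(K : ℤ)) K, ‖HS A d k‖ ^ 2 ≤
      ∑ j ∈ range (2 * (2 * K + 1)), ‖HS A d ((j : ℤ) - j' - K)‖ ^ 2 := by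
    intro j' hj'
    rw [mem_range] at hj'
    have h2 : ∑ k ∈ Icc (-(K : ℤ)) K, ‖HS A d k‖ ^ 2 =
        ∑ j ∈ (Icc (-(K : ℤ)) K).image (fun k : ℤ => (k + K + j').toNat),
          ‖HS A d ((j : ℤ) - j' - K)‖ ^ 2 := by
      rw [sum_image]
      · refine sum_congr rfl fun k hk => ?_
        rw [mem_Icc] at hk
        congr 3
        have : (((k + K + j').toNat : ℕ) : ℤ) = k + K + j' := Int.toNat_of_nonneg (by omega)
        rw [this]
        ring
      · intro a ha b hb hab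
        have ha' := mem_Icc.1 (mem_coe.1 ha)
        have hb' := mem_Icc.1 (mem_coe.1 hb)
        simp only at hab
        omega
    rw [h2]
    refine sum_le_sum_of_subset_of_nonneg ?_ fun _ _ _ => sq_nonneg _
    intro j hj
    rw [mem_image] at hj
    obtain ⟨k, hk, rfl⟩ := hj
    rw [mem_Icc] at hk
    rw [mem_range]
    omega
  calc _ = ∑ j' ∈ range (2 * K + 1), ∑ k ∈ Icc (-(K : ℤ)) K, ‖HS A d k‖ ^ 2 := by
        rw [sum_const, card_range, nsmul_eq_mul]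
    _ ≤ ∑ j' ∈ range (2 * K + 1), ∑ j ∈ range (2 * (2 * K + 1)),
        ‖HS A d ((j : ℤ) - j' - K)‖ ^ 2 := sum_le_sum h1
    _ ≤ _ := by
        refine sum_le_sum_of_subset_of_nonneg ?_ fun _ _ _ => sum_nonneg fun _ _ => sq_nonneg _
        intro j hj
        rw [mem_range] at hj ⊢
        omega

/-- sums over separated points -/
theorem sep_sum (B : Finset ℝ) (δ L : ℝ) (hδ : 0 < δ) (hL : 0 < L) (hB : ∀ u ∈ B, δ ≤ u)
    (hsep : ∀ u ∈ B, ∀ v ∈ B, u ≠ v → δ ≤ |u - v|) :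
    ∑ u ∈ B, min (4 * L ^ 2) (10 / u ^ 2) ≤ 4 * L ^ 2 + 14 * L / δ := by
  classical
  set P : ℕ := ⌈1 / (δ * L)⌉₊ with hP
  have hP0 : 0 < P := Nat.ceil_pos.2 (by positivity)
  have hP1 : 1 / (δ * L) ≤ P := Nat.le_ceil _
  have hP2 : (P : ℝ) ≤ 1 / (δ * L) + 1 := (Nat.ceil_lt_add_one (by positivity)).le
  set nn : ℝ → ℕ := fun u => ⌊u / δ⌋₊ with hnn
  have hn1 : ∀ u ∈ B, 1 ≤ nn u := by
    intro u hu
    rw [hnn]
    refine Nat.le_floor ?_
    rw [Nat.cast_one, le_div_iff₀ hδ, one_mul]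
    exact hB u hu
  have hn2 : ∀ u ∈ B, (nn u : ℝ) * δ ≤ u := by
    intro u hu
    have h := Nat.floor_le (div_nonneg (hδ.le.trans (hB u hu)) hδ.le : 0 ≤ u / δ)
    calc (nn u : ℝ) * δ ≤ u / δ * δ := mul_le_mul_of_nonneg_right h hδ.le
      _ = u := by field_simp
  have hinj : Set.InjOn nn B := by
    intro u hu v hv huv
    by_contra hne
    have h1 := hsep u hu v hv hne
    have h2 := Nat.floor_le (div_nonneg (hδ.le.trans (hB u hu)) hδ.le : 0 ≤ u / δ)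
    have h3 := Nat.floor_le (div_nonneg (hδ.le.trans (hB v hv)) hδ.le : 0 ≤ v / δ)
    have h4 := Nat.lt_floor_add_one (u / δ)
    have h5 := Nat.lt_floor_add_one (v / δ)
    have h6 : (⌊u / δ⌋₊ : ℝ) = ⌊v / δ⌋₊ := by exact_mod_cast huv
    have h7 : |u / δ - v / δ| < 1 := by
      rw [abs_lt]
      constructor <;> linarith
    rw [← sub_div, abs_div, abs_of_pos hδ, div_lt_one hδ] at h7
    linarith
  have h1 : ∑ u ∈ B, min (4 * L ^ 2) (10 / u ^ 2) ≤
      ∑ n ∈ B.image nn, min (4 * L ^ 2) (10 / ((n : ℝ) * δ) ^ 2) := by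
    rw [sum_image hinj]
    refine sum_le_sum fun u hu => min_le_min le_rfl ?_
    have h2 : (0 : ℝ) < nn u := by exact_mod_cast hn1 u hu
    exact div_le_div_of_nonneg_left (by norm_num) (by positivity)
      (pow_le_pow_left₀ (by positivity) (hn2 u hu) 2)
  obtain ⟨M, hM⟩ : ∃ M : ℕ, B.image nn ⊆ Ioc 0 M ∧ P ≤ M := by
    refine ⟨P + ∑ u ∈ B, nn u, fun n hn => ?_, by omega⟩
    rw [mem_image] at hn
    obtain ⟨u, hu, rfl⟩ := hn
    rw [mem_Ioc]
    have h2 : nn u ≤ ∑ u ∈ B, nn u := single_le_sum (f := nn) (fun _ _ => Nat.zero_le _) hu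
    have h3 := hn1 u hu
    omega
  have h2 : ∑ n ∈ B.image nn, min (4 * L ^ 2) (10 / ((n : ℝ) * δ) ^ 2) ≤
      ∑ n ∈ Ioc 0 M, min (4 * L ^ 2) (10 / ((n : ℝ) * δ) ^ 2) :=
    sum_le_sum_of_subset_of_nonneg hM.1 fun _ _ _ => le_min (by positivity) (by positivity)
  have h3 : ∑ n ∈ Ioc 0 M, min (4 * L ^ 2) (10 / ((n : ℝ) * δ) ^ 2) =
      ∑ n ∈ Ioc 0 P, min (4 * L ^ 2) (10 / ((n : ℝ) * δ) ^ 2) +
        ∑ n ∈ Ioc P M, min (4 * L ^ 2) (10 / ((n : ℝ) * δ) ^ 2) := by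
    rw [← sum_union]
    · congr 1
      ext n
      simp only [mem_union, mem_Ioc]
      have := hM.2
      omega
    · rw [disjoint_left]
      intro n h4 h5
      rw [mem_Ioc] at h4 h5
      omega
  have h4 : ∑ n ∈ Ioc 0 P, min (4 * L ^ 2) (10 / ((n : ℝ) * δ) ^ 2) ≤ P * (4 * L ^ 2) := by
    calc _ ≤ ∑ n ∈ Ioc 0 P, 4 * L ^ 2 := sum_le_sum fun _ _ => min_le_left _ _
      _ = _ := by
        rw [sum_const, Nat.card_Ioc, nsmul_eq_mul, Nat.sub_zero]
  have h5 : ∑ n ∈ Ioc P M, min (4 * L ^ 2) (10 / ((n : ℝ) * δ) ^ 2) ≤ 10 / δ ^ 2 * (P : ℝ)⁻¹ := by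
    calc _ ≤ ∑ n ∈ Ioc P M, 10 / δ ^ 2 * ((n : ℝ) ^ 2)⁻¹ := by
          refine sum_le_sum fun n hn => (min_le_right _ _).trans (le_of_eq ?_)
          rw [mem_Ioc] at hn
          have : (n : ℝ) ≠ 0 := by
            have : n ≠ 0 := by omega
            exact_mod_cast this
          field_simp
      _ = 10 / δ ^ 2 * ∑ n ∈ Ioc P M, ((n : ℝ) ^ 2)⁻¹ := by rw [mul_sum]
      _ ≤ 10 / δ ^ 2 * ((P : ℝ)⁻¹ - (M : ℝ)⁻¹) :=
          mul_le_mul_of_nonneg_left (sum_Ioc_inv_sq_le_sub hP0.ne' hM.2) (by positivity)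
      _ ≤ _ := by
          refine mul_le_mul_of_nonneg_left ?_ (by positivity)
          have : (0 : ℝ) ≤ (M : ℝ)⁻¹ := by positivity
          linarith
  have hP0' : (0 : ℝ) < P := by exact_mod_cast hP0
  have h6 : (P : ℝ)⁻¹ ≤ δ * L := by
    rw [inv_le_comm₀ hP0' (by positivity), ← one_div]
    exact hP1
  have h7 : 10 / δ ^ 2 * (P : ℝ)⁻¹ ≤ 10 * L / δ := by
    calc 10 / δ ^ 2 * (P : ℝ)⁻¹ ≤ 10 / δ ^ 2 * (δ * L) :=
          mul_le_mul_of_nonneg_left h6 (by positivity)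
      _ = 10 * L / δ := by field_simp
  have h8 : P * (4 * L ^ 2) ≤ 4 * L / δ + 4 * L ^ 2 := by
    calc (P : ℝ) * (4 * L ^ 2) ≤ (1 / (δ * L) + 1) * (4 * L ^ 2) :=
          mul_le_mul_of_nonneg_right hP2 (by positivity)
      _ = 4 * L / δ + 4 * L ^ 2 := by field_simp
  have h9 : 14 * L / δ = 4 * L / δ + 10 * L / δ := by ring
  linarith

/-- the dual large sieve inequality for points on a half circle -/
theorem dls (A : Finset ℝ) (d : ℝ → ℂ) (K : ℕ) (δ : ℝ) (hδ : 0 < δ)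
    (hsep : ∀ a ∈ A, ∀ b ∈ A, a ≠ b → δ ≤ |a - b|) (hpi : ∀ a ∈ A, ∀ b ∈ A, |a - b| ≤ Real.pi) :
    ∑ k ∈ Icc (-(K : ℤ)) K, ‖HS A d k‖ ^ 2 ≤
      (12 * (2 * K + 1) + 28 / δ) * ∑ a ∈ A, ‖d a‖ ^ 2 := by
  classical
  set L : ℝ := 2 * K + 1 with hL
  have hL0 : 0 < L := by positivity
  set N : ℕ := 2 * (2 * K + 1) with hN
  have hNL : (N : ℝ) = 2 * L := by rw [hN, hL]; push_cast; ring
  have hpi10 : Real.pi ^ 2 ≤ 10 := by
    have h1 := Real.pi_lt_d2
    have h2 := Real.pi_pos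
    nlinarith
  -- the weight
  set W : ℝ → ℝ → ℝ := fun a b => if a = b then 4 * L ^ 2 else
    min (4 * L ^ 2) (10 / (a - b) ^ 2) with hW
  have hW0 : ∀ a b, 0 ≤ W a b := by
    intro a b
    simp only [hW]
    split_ifs
    · positivity
    · exact le_min (by positivity) (by positivity)
  have hWs : ∀ a b, W a b = W b a := by
    intro a b
    simp only [hW]
    by_cases h : a = b
    · rw [if_pos h, if_pos h.symm]
    · rw [if_neg h, if_neg (Ne.symm h)]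
      congr 2
      ring
  have hDW : ∀ a ∈ A, ∀ b ∈ A, ‖DK N (a - b)‖ ^ 2 ≤ W a b := by
    intro a ha b hb
    have h1 : ‖DK N (a - b)‖ ^ 2 ≤ 4 * L ^ 2 := by
      calc ‖DK N (a - b)‖ ^ 2 ≤ (N : ℝ) ^ 2 := pow_le_pow_left₀ (norm_nonneg _) (DK_le _ _) 2
        _ = 4 * L ^ 2 := by rw [hNL]; ring
    simp only [hW]
    split_ifs with h
    · exact h1
    · refine le_min h1 ?_
      have h2 := DK_le' N (sub_ne_zero.2 h) (hpi a ha b hb)
      calc ‖DK N (a - b)‖ ^ 2 ≤ (Real.pi / |a - b|) ^ 2 :=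
            pow_le_pow_left₀ (norm_nonneg _) h2 2
        _ = Real.pi ^ 2 / (a - b) ^ 2 := by rw [div_pow, sq_abs]
        _ ≤ 10 / (a - b) ^ 2 := div_le_div_of_nonneg_right hpi10 (sq_nonneg _)
  have hrow : ∀ a ∈ A, ∑ b ∈ A, W a b ≤ 12 * L ^ 2 + 28 * L / δ := by
    intro a ha
    have h1 : ∑ b ∈ A, W a b = W a a + (∑ b ∈ A.filter (fun b => a < b), W a b +
        ∑ b ∈ A.filter (fun b => b < a), W a b) := by
      rw [← add_sum_erase A _ ha, ← sum_union]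
      · congr 2
        ext b
        simp only [mem_erase, mem_union, mem_filter]
        constructor
        · rintro ⟨h, hb⟩
          rcases lt_or_gt_of_ne h with h | h
          · exact Or.inr ⟨hb, h⟩
          · exact Or.inl ⟨hb, h⟩
        · rintro (⟨hb, h⟩ | ⟨hb, h⟩)
          · exact ⟨h.ne', hb⟩
          · exact ⟨h.ne, hb⟩
      · rw [disjoint_left]
        intro b hb hb'
        rw [mem_filter] at hb hb'
        exact lt_asymm hb.2 hb'.2
    have h2 : W a a = 4 * L ^ 2 := by simp [hW]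
    have h3 : ∑ b ∈ A.filter (fun b => a < b), W a b ≤ 4 * L ^ 2 + 14 * L / δ := by
      have h4 := sep_sum ((A.filter (fun b => a < b)).image (fun b => b - a)) δ L hδ hL0 (by
        intro u hu
        rw [mem_image] at hu
        obtain ⟨b, hb, rfl⟩ := hu
        rw [mem_filter] at hb
        have := hsep b hb.1 a ha hb.2.ne'
        rwa [abs_of_pos (by linarith [hb.2])] at this) (by
        intro u hu v hv huv
        rw [mem_image] at hu hv
        obtain ⟨b, hb, rfl⟩ := hu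
        obtain ⟨b', hb', rfl⟩ := hv
        rw [mem_filter] at hb hb'
        have hne : b ≠ b' := by
          rintro rfl
          exact huv rfl
        have := hsep b hb.1 b' hb'.1 hne
        rwa [sub_sub_sub_cancel_right])
      rw [sum_image (fun b _ b' _ h => by simpa using h)] at h4
      refine le_trans (sum_le_sum fun b hb => ?_) h4
      rw [mem_filter] at hb
      simp only [hW]
      rw [if_neg hb.2.ne]
      refine le_of_eq ?_
      congr 2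
      ring
    have h3' : ∑ b ∈ A.filter (fun b => b < a), W a b ≤ 4 * L ^ 2 + 14 * L / δ := by
      have h4 := sep_sum ((A.filter (fun b => b < a)).image (fun b => a - b)) δ L hδ hL0 (by
        intro u hu
        rw [mem_image] at hu
        obtain ⟨b, hb, rfl⟩ := hu
        rw [mem_filter] at hb
        have := hsep a ha b hb.1 hb.2.ne'
        rwa [abs_of_pos (by linarith [hb.2])] at this) (by
        intro u hu v hv huv
        rw [mem_image] at hu hv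
        obtain ⟨b, hb, rfl⟩ := hu
        obtain ⟨b', hb', rfl⟩ := hv
        rw [mem_filter] at hb hb'
        have hne : b ≠ b' := by
          rintro rfl
          exact huv rfl
        have := hsep b hb.1 b' hb'.1 hne
        rw [sub_sub_sub_cancel_left, abs_sub_comm]
        exact this)
      rw [sum_image (fun b _ b' _ h => by simpa using h)] at h4
      refine le_trans (sum_le_sum fun b hb => ?_) h4
      rw [mem_filter] at hb
      simp only [hW]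
      rw [if_neg hb.2.ne']
    rw [h1, h2]
    have h9 : 28 * L / δ = 14 * L / δ + 14 * L / δ := by ring
    linarith
  -- Schur's test
  have hS : ∑ a ∈ A, ∑ b ∈ A, ‖d a‖ * ‖d b‖ * ‖DK N (a - b)‖ ^ 2 ≤
      (12 * L ^ 2 + 28 * L / δ) * ∑ a ∈ A, ‖d a‖ ^ 2 := by
    have h1 : ∀ a ∈ A, ∀ b ∈ A, ‖d a‖ * ‖d b‖ * ‖DK N (a - b)‖ ^ 2 ≤
        1 / 2 * (‖d a‖ ^ 2 * W a b) + 1 / 2 * (‖d b‖ ^ 2 * W b a) := by
      intro a ha b hb
      rw [hWs b a]
      have h2 : ‖d a‖ * ‖d b‖ ≤ 1 / 2 * ‖d a‖ ^ 2 + 1 / 2 * ‖d b‖ ^ 2 := by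
        nlinarith [sq_nonneg (‖d a‖ - ‖d b‖)]
      calc ‖d a‖ * ‖d b‖ * ‖DK N (a - b)‖ ^ 2 ≤ ‖d a‖ * ‖d b‖ * W a b :=
            mul_le_mul_of_nonneg_left (hDW a ha b hb) (by positivity)
        _ ≤ (1 / 2 * ‖d a‖ ^ 2 + 1 / 2 * ‖d b‖ ^ 2) * W a b :=
            mul_le_mul_of_nonneg_right h2 (hW0 a b)
        _ = _ := by ring
    calc _ ≤ ∑ a ∈ A, ∑ b ∈ A, (1 / 2 * (‖d a‖ ^ 2 * W a b) + 1 / 2 * (‖d b‖ ^ 2 * W b a)) :=
          sum_le_sum fun a ha => sum_le_sum fun b hb => h1 a ha b hb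
      _ = ∑ a ∈ A, ‖d a‖ ^ 2 * ∑ b ∈ A, W a b := by
          simp only [sum_add_distrib, ← mul_sum]
          have : ∑ a ∈ A, ∑ b ∈ A, ‖d b‖ ^ 2 * W b a = ∑ a ∈ A, ‖d a‖ ^ 2 * ∑ b ∈ A, W a b := by
            rw [sum_comm]
            exact sum_congr rfl fun a _ => by rw [mul_sum]
          rw [this]
          ring
      _ ≤ ∑ a ∈ A, ‖d a‖ ^ 2 * (12 * L ^ 2 + 28 * L / δ) :=
          sum_le_sum fun a ha => mul_le_mul_of_nonneg_left (hrow a ha) (sq_nonneg _)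
      _ = _ := by rw [← sum_mul]; ring
  have hfin := (shift A d K).trans ((expand A d N K).trans hS)
  have hL' : (((2 * K + 1 : ℕ) : ℕ) : ℝ) = L := by rw [hL]; push_cast; ring
  rw [hL'] at hfin
  have hfac : (12 * L ^ 2 + 28 * L / δ) * ∑ a ∈ A, ‖d a‖ ^ 2 =
      L * ((12 * L + 28 / δ) * ∑ a ∈ A, ‖d a‖ ^ 2) := by
    ring
  rw [hfac] at hfin
  exact le_of_mul_le_mul_left hfin hL0

end Pool.Agent.N546.GN.LSA
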