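import Pool.Agent.N782.GN.StmV
import Pool.Agent.N407.GN.Dvb
import Pool.Agent.N546.GN.LsbA

/-!
# Project GN (helper782): the sums over the Gaussian integers on one ray
-/

set_option autoImplicit false

namespace Pool.Agent.N546.GN.LSB

open Finset
open Pool.Agent.N782.GN
open Pool.Agent.H304R3.HK (CS)
open Pool.Agent.N407.GN (CS_card natAbs_norm nz_natAbs norm_pos' card_dv)
open Pool.Agent.N546.GN.LSA (E HS)

/-- the number of divisors -/
noncomputable def dd (n : ℕ) : ℝ := n.divisors.card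

theorem dd_nonneg (n : ℕ) : 0 ≤ dd n := Nat.cast_nonneg _

theorem dd_mul (a b : ℕ) : dd (a * b) ≤ dd a * dd b := by
  unfold dd
  have h : (a * b).divisors.card ≤ a.divisors.card * b.divisors.card := by
    rw [Nat.divisors_mul]
    exact Finset.card_mul_le
  exact_mod_cast h

/-- the moments with the weight `1 / g` -/
noncomputable def TT (j G : ℕ) : ℝ := ∑ g ∈ Icc 1 G, dd g ^ j / g

theorem TT_nonneg (j G : ℕ) : 0 ≤ TT j G :=
  sum_nonneg fun g _ => div_nonneg (pow_nonneg (dd_nonneg g) _) (Nat.cast_nonneg _)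

theorem TT_mono (j : ℕ) {G G' : ℕ} (h : G ≤ G') : TT j G ≤ TT j G' := by
  unfold TT
  refine sum_le_sum_of_subset_of_nonneg (Icc_subset_Icc_right h) fun g _ _ => ?_
  exact div_nonneg (pow_nonneg (dd_nonneg g) _) (Nat.cast_nonneg _)

theorem TT_succ (j G : ℕ) : TT (j + 1) G ≤ TT j G ^ 2 := by
  classical
  have h1 : TT (j + 1) G ≤ ∑ g ∈ Icc 1 G, ∑ x ∈ g.divisorsAntidiagonal,
      (dd x.1 ^ j / x.1) * (dd x.2 ^ j / x.2) := by
    unfold TT
    refine sum_le_sum fun g hg => ?_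
    have h2 : ∀ x ∈ g.divisorsAntidiagonal, dd g ^ j / g ≤
        (dd x.1 ^ j / x.1) * (dd x.2 ^ j / x.2) := by
      intro x hx
      rw [Nat.mem_divisorsAntidiagonal] at hx
      have h3 : (dd x.1 ^ j / x.1) * (dd x.2 ^ j / x.2) = (dd x.1 * dd x.2) ^ j / g := by
        rw [div_mul_div_comm, mul_pow]
        congr 1
        rw [← hx.1]
        push_cast
        rfl
      rw [h3]
      refine div_le_div_of_nonneg_right ?_ (Nat.cast_nonneg _)
      refine pow_le_pow_left₀ (dd_nonneg _) ?_ j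
      rw [← hx.1]
      exact dd_mul _ _
    have h4 : (g.divisorsAntidiagonal.card : ℝ) = dd g := by
      unfold dd
      rw [← Nat.map_div_right_divisors, card_map]
    calc dd g ^ (j + 1) / g = ∑ _x ∈ g.divisorsAntidiagonal, dd g ^ j / g := by
          rw [sum_const, nsmul_eq_mul, h4]
          ring
      _ ≤ _ := sum_le_sum h2
  have h5 : ∑ g ∈ Icc 1 G, ∑ x ∈ g.divisorsAntidiagonal,
      (dd x.1 ^ j / x.1) * (dd x.2 ^ j / x.2) ≤
      ∑ x ∈ Icc 1 G ×ˢ Icc 1 G, (dd x.1 ^ j / x.1) * (dd x.2 ^ j / x.2) := by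
    rw [← sum_biUnion]
    · refine sum_le_sum_of_subset_of_nonneg ?_ fun x _ _ => ?_
      · intro x hx
        rw [mem_biUnion] at hx
        obtain ⟨g, hg, hx⟩ := hx
        rw [Nat.mem_divisorsAntidiagonal] at hx
        rw [mem_Icc] at hg
        rw [mem_product, mem_Icc, mem_Icc]
        have h6 : 0 < x.1 * x.2 := by rw [hx.1]; omega
        have h7 : 0 < x.1 := Nat.pos_of_mul_pos_right h6
        have h8 : 0 < x.2 := Nat.pos_of_mul_pos_left h6
        refine ⟨⟨h7, ?_⟩, ⟨h8, ?_⟩⟩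
        · exact (Nat.le_mul_of_pos_right _ h8).trans (by rw [hx.1]; exact hg.2)
        · exact (Nat.le_mul_of_pos_left _ h7).trans (by rw [hx.1]; exact hg.2)
      · exact mul_nonneg (div_nonneg (pow_nonneg (dd_nonneg _) _) (Nat.cast_nonneg _))
          (div_nonneg (pow_nonneg (dd_nonneg _) _) (Nat.cast_nonneg _))
    · intro a _ b _ hab
      rw [Function.onFun, disjoint_left]
      intro x hx hx'
      rw [Nat.mem_divisorsAntidiagonal] at hx hx'
      exact hab (hx.1.symm.trans hx'.1)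
  refine h1.trans (h5.trans (le_of_eq ?_))
  rw [sum_product, sq]
  unfold TT
  rw [sum_mul_sum]

theorem TT_le (j : ℕ) : ∃ m : ℕ, ∀ V : ℝ, 2 ≤ V → TT j ⌊V⌋₊ ≤ (1 + Real.log V) ^ m := by
  induction j with
  | zero =>
    refine ⟨1, fun V hV => ?_⟩
    have h1 := harmonic_le_one_add_log ⌊V⌋₊
    have h2 : TT 0 ⌊V⌋₊ = (harmonic ⌊V⌋₊ : ℝ) := by
      unfold TT
      rw [harmonic_eq_sum_Icc]
      push_cast
      refine sum_congr rfl fun g _ => ?_
      rw [pow_zero, one_div]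
    rw [h2, pow_one]
    have h3 : Real.log ⌊V⌋₊ ≤ Real.log V := by
      refine Real.log_le_log ?_ (Nat.floor_le (by linarith))
      have : 0 < ⌊V⌋₊ := Nat.floor_pos.2 (by linarith)
      exact_mod_cast this
    linarith
  | succ j ih =>
    obtain ⟨m, hm⟩ := ih
    refine ⟨m * 2, fun V hV => ?_⟩
    rw [pow_mul]
    exact (TT_succ j _).trans (pow_le_pow_left₀ (TT_nonneg _ _) (hm V hV) 2)

/-- the norm as a natural number -/
noncomputable def NN (z : ZI) : ℕ := (Zsqrtd.norm z).natAbs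

theorem nz_NN (z : ZI) : nz z = (NN z : ℝ) := nz_natAbs z

theorem NN_pos {z : ZI} (hz : z ≠ 0) : 1 ≤ NN z := norm_pos' hz

theorem card_fiber (S : Finset ZI) (n : ℕ) (hn : 1 ≤ n) :
    ((S.filter fun w => NN w = n).card : ℝ) ≤ 4 * dd n := by
  classical
  have h1 : (S.filter fun w => NN w = n).card ≤ (CS n).card := by
    refine Finset.card_le_card_of_injOn (fun w : ZI => (w.re, w.im)) ?_ ?_
    · intro w hw
      have hw' := (mem_filter.1 (mem_coe.1 hw)).2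
      have h0 := natAbs_norm w
      have h1 : ((Zsqrtd.norm w).natAbs : ℤ) = n := by exact_mod_cast hw'
      rw [h1] at h0
      have hn' : (1 : ℤ) ≤ n := by exact_mod_cast hn
      rw [mem_coe]
      unfold CS
      rw [mem_filter, mem_product, mem_Icc, mem_Icc]
      refine ⟨⟨⟨?_, ?_⟩, ⟨?_, ?_⟩⟩, h0.symm⟩ <;> nlinarith [sq_nonneg w.re, sq_nonneg w.im]
    · intro w _ w' _ h
      simp only [Prod.mk.injEq] at h
      exact Zsqrtd.ext h.1 h.2
  have h2 := CS_card n hn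
  have h3 := h1.trans h2
  unfold dd
  exact_mod_cast h3

/-- the sum over all Gaussian integers -/
theorem sum_w (V : ℝ) (j : ℕ) :
    ∑ w ∈ bl V, dd (NN w) ^ j / nz w ≤ 4 * TT (j + 1) ⌊V⌋₊ := by
  classical
  have hmap : ∀ w ∈ bl V, NN w ∈ Icc 1 ⌊V⌋₊ := by
    intro w hw
    rw [mem_bl] at hw
    rw [mem_Icc]
    refine ⟨NN_pos hw.1, Nat.le_floor ?_⟩
    rw [← nz_NN]
    exact hw.2
  rw [← sum_fiberwise_of_maps_to hmap]
  unfold TT
  rw [mul_sum]
  refine sum_le_sum fun n hn => ?_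
  rw [mem_Icc] at hn
  have h1 : ∑ w ∈ (bl V).filter (fun w => NN w = n), dd (NN w) ^ j / nz w =
      ((bl V).filter (fun w => NN w = n)).card * (dd n ^ j / n) := by
    rw [← nsmul_eq_mul, ← sum_const]
    refine sum_congr rfl fun w hw => ?_
    rw [mem_filter] at hw
    rw [nz_NN, hw.2]
  rw [h1]
  calc _ ≤ 4 * dd n * (dd n ^ j / n) := by
        refine mul_le_mul_of_nonneg_right (card_fiber _ n hn.1) ?_
        exact div_nonneg (pow_nonneg (dd_nonneg _) _) (Nat.cast_nonneg _)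
    _ = _ := by ring

/-! ### rays -/

theorem norm_sq_toComplex (z : ZI) : ‖(z : ℂ)‖ ^ 2 = nz z := by
  rw [Complex.sq_norm, Complex.normSq_apply, nz_eq, ← GaussianInt.intCast_re,
    ← GaussianInt.intCast_im]
  ring

theorem toComplex_ne {z : ZI} (hz : z ≠ 0) : (z : ℂ) ≠ 0 := by
  rwa [Ne, GaussianInt.toComplex_eq_zero]

/-- the angle -/
noncomputable def an (t : ZI) : ℝ := Complex.arg (t : ℂ)

/-- the points of a ray are the multiples of the first one -/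
theorem ray (V θ : ℝ) (hθ : ∃ t ∈ bl V, an t = θ) :
    ∃ w ∈ bl V, an w = θ ∧ ∀ t ∈ bl V, an t = θ →
      ∃ g : ℕ, 1 ≤ g ∧ t = (g : ZI) * w := by
  classical
  obtain ⟨t0, ht0, hθ0⟩ := hθ
  obtain ⟨w, hw, hmin⟩ := Finset.exists_min_image
    ((bl V).filter fun t => an t = θ) nz ⟨t0, mem_filter.2 ⟨ht0, hθ0⟩⟩
  rw [mem_filter] at hw
  refine ⟨w, hw.1, hw.2, fun t ht hθt => ?_⟩
  have hw1 := (mem_bl V w).1 hw.1
  have ht1 := (mem_bl V t).1 ht
  have hwc := toComplex_ne hw1.1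
  have htc := toComplex_ne ht1.1
  have hwn : 0 < ‖(w : ℂ)‖ := norm_pos_iff.2 hwc
  have htn : 0 < ‖(t : ℂ)‖ := norm_pos_iff.2 htc
  have h1 := (Complex.arg_eq_arg_iff hwc htc).1 (hw.2.trans hθt.symm)
  set l : ℝ := ‖(t : ℂ)‖ / ‖(w : ℂ)‖ with hl
  have h1' : (l : ℂ) * (w : ℂ) = (t : ℂ) := by
    rw [hl]
    push_cast
    exact h1
  have hl1 : 1 ≤ l := by
    rw [hl, le_div_iff₀ hwn, one_mul]
    have h2 := hmin t (mem_filter.2 ⟨ht, hθt⟩)
    rw [← norm_sq_toComplex, ← norm_sq_toComplex] at h2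
    exact (pow_le_pow_iff_left₀ hwn.le htn.le (by norm_num)).1 h2
  set m : ℕ := ⌊l⌋₊ with hm
  have hm1 : 1 ≤ m := Nat.le_floor (by exact_mod_cast hl1)
  have hm2 : (m : ℝ) ≤ l := Nat.floor_le (by linarith)
  have hm3 : l < m + 1 := Nat.lt_floor_add_one l
  refine ⟨m, hm1, ?_⟩
  by_contra hne
  set s : ZI := t - (m : ZI) * w with hs
  have hs0 : s ≠ 0 := sub_ne_zero.2 hne
  have hsc : (s : ℂ) = ((l - m : ℝ) : ℂ) * (w : ℂ) := by
    rw [hs, GaussianInt.toComplex_sub, GaussianInt.toComplex_mul, ← h1', map_natCast]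
    push_cast
    ring
  have hlm : 0 < l - m := by
    rcases (sub_nonneg.2 hm2).lt_or_eq with h | h
    · exact h
    · exfalso
      rw [← h] at hsc
      rw [Complex.ofReal_zero, zero_mul, GaussianInt.toComplex_eq_zero] at hsc
      exact hs0 hsc
  have hsa : an s = θ := by
    unfold an
    rw [hsc, Complex.arg_real_mul _ hlm]
    exact hw.2
  have hsn : nz s = (l - m) ^ 2 * nz w := by
    rw [← norm_sq_toComplex, hsc, norm_mul, mul_pow, norm_sq_toComplex, Complex.norm_real,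
      Real.norm_eq_abs, sq_abs]
  have hwpos : 0 < nz w := by
    rw [← norm_sq_toComplex]
    positivity
  have hlt : nz s < nz w := by
    rw [hsn]
    have : (l - m) ^ 2 < 1 := by nlinarith
    nlinarith
  have hsb : s ∈ bl V := (mem_bl V s).2 ⟨hs0, by linarith [hw1.2]⟩
  have := hmin s (mem_filter.2 ⟨hsb, hsa⟩)
  linarith

/-- the sum over one ray -/
theorem ray_sum (V : ℝ) (hV : 2 ≤ V) (c : ZI → ℂ) (hc : ∀ t, ‖c t‖ ≤ (dv t : ℝ) ^ 2) (θ : ℝ)
    (w : ZI) (hw : w ∈ bl V) (hr : ∀ t ∈ bl V, an t = θ →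
      ∃ g : ℕ, 1 ≤ g ∧ t = (g : ZI) * w) :
    ‖∑ t ∈ (bl V).filter (fun t => an t = θ), c t‖ ^ 2 ≤
      256 * V * TT 16 ⌊V⌋₊ * (dd (NN w) ^ 8 / nz w) := by
  classical
  have hw1 := (mem_bl V w).1 hw
  have hwN := NN_pos hw1.1
  have hwn : 1 ≤ nz w := by
    rw [nz_NN]
    exact_mod_cast hwN
  have hwn0 : 0 < nz w := by linarith
  set G : ℕ := ⌊Real.sqrt (V / nz w)⌋₊ with hG
  have hnat : ∀ g : ℕ, NN ((g : ZI) * w) = g ^ 2 * NN w := by
    intro g
    unfold NN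
    rw [Zsqrtd.norm_mul, Int.natAbs_mul, Zsqrtd.norm_natCast, Int.natAbs_mul,
      Int.natAbs_natCast]
    ring
  have hsub : (bl V).filter (fun t => an t = θ) ⊆
      (Icc 1 G).image (fun g : ℕ => (g : ZI) * w) := by
    intro t ht
    rw [mem_filter] at ht
    obtain ⟨g, hg, htg⟩ := hr t ht.1 ht.2
    rw [mem_image]
    refine ⟨g, ?_, htg.symm⟩
    rw [mem_Icc]
    refine ⟨hg, Nat.le_floor ?_⟩
    have h1 := ((mem_bl V t).1 ht.1).2
    rw [htg, nz_NN, hnat] at h1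
    push_cast at h1
    rw [← nz_NN] at h1
    refine Real.le_sqrt_of_sq_le ?_
    rw [le_div_iff₀ hwn0]
    exact h1
  have hinj : Set.InjOn (fun g : ℕ => (g : ZI) * w) (Icc 1 G : Finset ℕ) := by
    intro g _ g' _ h
    have h2 : (g : ZI) = (g' : ZI) := mul_right_cancel₀ hw1.1 h
    exact_mod_cast h2
  have hterm : ∀ g ∈ Icc 1 G, ‖c ((g : ZI) * w)‖ ≤ 16 * (dd g ^ 8 * dd (NN w) ^ 4) := by
    intro g hg
    rw [mem_Icc] at hg
    have hg0 : (g : ZI) ≠ 0 := by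
      have : g ≠ 0 := by omega
      exact_mod_cast this
    have h1 : (dv ((g : ZI) * w) : ℝ) ≤ 4 * dd (NN ((g : ZI) * w)) ^ 2 := by
      have := card_dv ((g : ZI) * w) (mul_ne_zero hg0 hw1.1)
      unfold dd NN
      exact_mod_cast this
    have h2 : dd (NN ((g : ZI) * w)) ≤ dd g ^ 2 * dd (NN w) := by
      rw [hnat]
      refine (dd_mul _ _).trans (mul_le_mul_of_nonneg_right ?_ (dd_nonneg _))
      rw [sq, sq]
      exact dd_mul _ _
    calc ‖c ((g : ZI) * w)‖ ≤ (dv ((g : ZI) * w) : ℝ) ^ 2 := hc _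
      _ ≤ (4 * (dd g ^ 2 * dd (NN w)) ^ 2) ^ 2 := by
          refine pow_le_pow_left₀ (Nat.cast_nonneg _) (h1.trans ?_) 2
          exact mul_le_mul_of_nonneg_left (pow_le_pow_left₀ (dd_nonneg _) h2 2) (by norm_num)
      _ = _ := by ring
  have h3 : ‖∑ t ∈ (bl V).filter (fun t => an t = θ), c t‖ ≤
      ∑ g ∈ Icc 1 G, 16 * (dd g ^ 8 * dd (NN w) ^ 4) := by
    calc _ ≤ ∑ t ∈ (bl V).filter (fun t => an t = θ), ‖c t‖ := norm_sum_le _ _
      _ ≤ ∑ t ∈ (Icc 1 G).image (fun g : ℕ => (g : ZI) * w), ‖c t‖ :=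
          sum_le_sum_of_subset_of_nonneg hsub fun _ _ _ => norm_nonneg _
      _ = ∑ g ∈ Icc 1 G, ‖c ((g : ZI) * w)‖ := sum_image hinj
      _ ≤ _ := sum_le_sum hterm
  have hG1 : (G : ℝ) ^ 2 ≤ V / nz w := by
    have h4 : (G : ℝ) ≤ Real.sqrt (V / nz w) := Nat.floor_le (Real.sqrt_nonneg _)
    calc (G : ℝ) ^ 2 ≤ Real.sqrt (V / nz w) ^ 2 := pow_le_pow_left₀ (Nat.cast_nonneg _) h4 2
      _ = V / nz w := Real.sq_sqrt (by positivity)
  have hGV : G ≤ ⌊V⌋₊ := by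
    refine Nat.floor_le_floor ?_
    rw [Real.sqrt_le_left (by linarith)]
    calc V / nz w ≤ V := div_le_self (by linarith) hwn
      _ ≤ V ^ 2 := by nlinarith
  have h5 : ∑ g ∈ Icc 1 G, dd g ^ 16 ≤ G * TT 16 ⌊V⌋₊ := by
    calc ∑ g ∈ Icc 1 G, dd g ^ 16 ≤ ∑ g ∈ Icc 1 G, G * (dd g ^ 16 / g) := by
          refine sum_le_sum fun g hg => ?_
          rw [mem_Icc] at hg
          have hg0 : (0 : ℝ) < g := by
            have : 0 < g := by omega
            exact_mod_cast this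
          have hgG : (g : ℝ) ≤ G := by exact_mod_cast hg.2
          have h6 : 0 ≤ dd g ^ 16 := pow_nonneg (dd_nonneg _) _
          rw [mul_div_assoc', le_div_iff₀ hg0]
          nlinarith
      _ = G * TT 16 G := by rw [← mul_sum]; rfl
      _ ≤ _ := mul_le_mul_of_nonneg_left (TT_mono 16 hGV) (Nat.cast_nonneg _)
  calc ‖∑ t ∈ (bl V).filter (fun t => an t = θ), c t‖ ^ 2
      ≤ (∑ g ∈ Icc 1 G, 16 * (dd g ^ 8 * dd (NN w) ^ 4)) ^ 2 :=
        pow_le_pow_left₀ (norm_nonneg _) h3 2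
    _ ≤ ((Icc 1 G).card : ℝ) * ∑ g ∈ Icc 1 G, (16 * (dd g ^ 8 * dd (NN w) ^ 4)) ^ 2 :=
        sq_sum_le_card_mul_sum_sq
    _ = G * (256 * dd (NN w) ^ 8 * ∑ g ∈ Icc 1 G, dd g ^ 16) := by
        rw [Nat.card_Icc, Nat.add_sub_cancel]
        congr 1
        rw [mul_sum]
        refine sum_congr rfl fun g _ => ?_
        ring
    _ ≤ G * (256 * dd (NN w) ^ 8 * (G * TT 16 ⌊V⌋₊)) := by
        refine mul_le_mul_of_nonneg_left ?_ (Nat.cast_nonneg _)
        refine mul_le_mul_of_nonneg_left h5 ?_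
        exact mul_nonneg (by norm_num) (pow_nonneg (dd_nonneg _) _)
    _ = (G : ℝ) ^ 2 * (256 * dd (NN w) ^ 8 * TT 16 ⌊V⌋₊) := by ring
    _ ≤ V / nz w * (256 * dd (NN w) ^ 8 * TT 16 ⌊V⌋₊) := by
        refine mul_le_mul_of_nonneg_right hG1 ?_
        exact mul_nonneg (mul_nonneg (by norm_num) (pow_nonneg (dd_nonneg _) _)) (TT_nonneg _ _)
    _ = _ := by ring

/-- the angles -/
noncomputable def AA (V : ℝ) : Finset ℝ := (bl V).image (fun t => an t)

/-- the coefficient of an angle -/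
noncomputable def cA (V : ℝ) (c : ZI → ℂ) (θ : ℝ) : ℂ :=
  ∑ t ∈ (bl V).filter (fun t => an t = θ), c t

theorem sum_cA (V : ℝ) (hV : 2 ≤ V) (c : ZI → ℂ) (hc : ∀ t, ‖c t‖ ≤ (dv t : ℝ) ^ 2) :
    ∑ θ ∈ AA V, ‖cA V c θ‖ ^ 2 ≤ 1024 * V * TT 16 ⌊V⌋₊ * TT 9 ⌊V⌋₊ := by
  classical
  have h1 : ∀ θ : ℝ, ∃ w : ZI, θ ∈ AA V → w ∈ bl V ∧ an w = θ ∧
      ‖cA V c θ‖ ^ 2 ≤ 256 * V * TT 16 ⌊V⌋₊ * (dd (NN w) ^ 8 / nz w) := by
    intro θ
    by_cases hθ : θ ∈ AA V
    · unfold AA at hθ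
      rw [mem_image] at hθ
      obtain ⟨w, hw, hwθ, hr⟩ := ray V θ hθ
      exact ⟨w, fun _ => ⟨hw, hwθ, ray_sum V hV c hc θ w hw hr⟩⟩
    · exact ⟨0, fun h => absurd h hθ⟩
  choose w hw using h1
  have hinj : Set.InjOn w (AA V : Finset ℝ) := by
    intro a ha b hb hab
    rw [← (hw a ha).2.1, ← (hw b hb).2.1, hab]
  have h0 : 0 ≤ 256 * V * TT 16 ⌊V⌋₊ := mul_nonneg (by linarith) (TT_nonneg _ _)
  calc ∑ θ ∈ AA V, ‖cA V c θ‖ ^ 2
      ≤ ∑ θ ∈ AA V, 256 * V * TT 16 ⌊V⌋₊ * (dd (NN (w θ)) ^ 8 / nz (w θ)) :=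
        sum_le_sum fun θ hθ => (hw θ hθ).2.2
    _ = ∑ z ∈ (AA V).image w, 256 * V * TT 16 ⌊V⌋₊ * (dd (NN z) ^ 8 / nz z) := by
        rw [sum_image hinj]
    _ ≤ ∑ z ∈ bl V, 256 * V * TT 16 ⌊V⌋₊ * (dd (NN z) ^ 8 / nz z) := by
        refine sum_le_sum_of_subset_of_nonneg ?_ fun z _ _ => ?_
        · intro z hz
          rw [mem_image] at hz
          obtain ⟨θ, hθ, rfl⟩ := hz
          exact (hw θ hθ).1
        · exact mul_nonneg h0 (div_nonneg (pow_nonneg (dd_nonneg _) _) (nz_nonneg _))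
    _ = 256 * V * TT 16 ⌊V⌋₊ * ∑ z ∈ bl V, dd (NN z) ^ 8 / nz z := by rw [mul_sum]
    _ ≤ 256 * V * TT 16 ⌊V⌋₊ * (4 * TT 9 ⌊V⌋₊) :=
        mul_le_mul_of_nonneg_left (sum_w V 8) h0
    _ = _ := by ring

/-- the spacing of the angles -/
theorem spacing (V : ℝ) (hV : 2 ≤ V) {a b : ℝ} (ha : a ∈ AA V) (hb : b ∈ AA V) (hab : a ≠ b)
    (hpi : |a - b| < Real.pi) : 1 / V ≤ |a - b| := by
  classical
  unfold AA at ha hb
  rw [mem_image] at ha hb
  obtain ⟨t, ht, rfl⟩ := ha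
  obtain ⟨t', ht', rfl⟩ := hb
  rw [mem_bl] at ht ht'
  have htn : 0 < ‖(t : ℂ)‖ := norm_pos_iff.2 (toComplex_ne ht.1)
  have htn' : 0 < ‖(t' : ℂ)‖ := norm_pos_iff.2 (toComplex_ne ht'.1)
  have hprod : ‖(t : ℂ)‖ * ‖(t' : ℂ)‖ ≤ V := by
    have h1 := norm_sq_toComplex t
    have h2 := norm_sq_toComplex t'
    nlinarith [sq_nonneg (‖(t : ℂ)‖ - ‖(t' : ℂ)‖)]
  have hcross : ((t.im * t'.re - t.re * t'.im : ℤ) : ℝ) = ‖(t : ℂ)‖ * ‖(t' : ℂ)‖ *
      Real.sin (an t - an t') := by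
    have e1 : (t.im : ℝ) = ‖(t : ℂ)‖ * Real.sin (an t) := by
      rw [GaussianInt.intCast_im]
      exact (Complex.norm_mul_sin_arg _).symm
    have e2 : (t.re : ℝ) = ‖(t : ℂ)‖ * Real.cos (an t) := by
      rw [GaussianInt.intCast_re]
      exact (Complex.norm_mul_cos_arg _).symm
    have e3 : (t'.im : ℝ) = ‖(t' : ℂ)‖ * Real.sin (an t') := by
      rw [GaussianInt.intCast_im]
      exact (Complex.norm_mul_sin_arg _).symm
    have e4 : (t'.re : ℝ) = ‖(t' : ℂ)‖ * Real.cos (an t') := by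
      rw [GaussianInt.intCast_re]
      exact (Complex.norm_mul_cos_arg _).symm
    rw [Real.sin_sub]
    push_cast
    rw [e1, e2, e3, e4]
    ring
  have hsin : Real.sin (an t - an t') ≠ 0 := by
    intro h
    rw [Real.sin_eq_zero_iff_of_lt_of_lt (by linarith [(abs_lt.1 hpi).1])
      (abs_lt.1 hpi).2] at h
    exact hab (sub_eq_zero.1 h)
  have hint : (t.im * t'.re - t.re * t'.im : ℤ) ≠ 0 := by
    intro h
    rw [h, Int.cast_zero] at hcross
    exact hsin ((mul_eq_zero.1 hcross.symm).resolve_left (mul_pos htn htn').ne')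
  have h1 : (1 : ℝ) ≤ |((t.im * t'.re - t.re * t'.im : ℤ) : ℝ)| := by
    rw [← Int.cast_abs]
    exact_mod_cast Int.one_le_abs hint
  rw [hcross, abs_mul, abs_of_pos (mul_pos htn htn')] at h1
  have h2 : |Real.sin (an t - an t')| ≤
      |an t - an t'| := Real.abs_sin_le_abs
  rw [div_le_iff₀ (by linarith)]
  calc (1 : ℝ) ≤ ‖(t : ℂ)‖ * ‖(t' : ℂ)‖ *
        |Real.sin (an t - an t')| := h1
    _ ≤ V * |an t - an t'| :=
        mul_le_mul hprod h2 (abs_nonneg _) (by linarith)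
    _ = _ := by ring

end Pool.Agent.N546.GN.LSB
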